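import Pool.Graph.R_seed8.Results.MP_8401d0_pr.OneFinalMinimal
import Pool.Agent.KS6_31.AM.Main

/-
Random accessible automata with exactly one final state: the exact limit of the probability of being
minimal.

`n + 1` is the number of states; the states are `Fin (n + 1)`, the initial state is `0`.
Complete deterministic automata are Mathlib's `DFA`.
-/

set_option autoImplicit false

open Filter Topology

namespace Pool.Agent.Results.MP_8401d0_pr.ExactLimit

/-- The set of accessible complete deterministic automata over the alphabet `A` with state set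
`Fin (n + 1)`, initial state `0` and exactly one final state. -/
def OneFinal (A : Type) (n : ℕ) : Set (DFA A (Fin (n + 1))) :=
  {M | M.start = 0 ∧ (∀ q, ∃ w : List A, M.evalFrom M.start w = q) ∧ ∃ f, M.accept = {f}}

/-- No two distinct states are equivalent (accept the same words). -/
def IsMinimal {A : Type} {n : ℕ} (M : DFA A (Fin (n + 1))) : Prop :=
  ∀ p q, M.acceptsFrom p = M.acceptsFrom q → p = q

/-- The probability that a uniformly random element of `OneFinal A n` is minimal. -/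
noncomputable def prob (A : Type) (n : ℕ) : ℝ :=
  (Set.ncard {M | M ∈ OneFinal A n ∧ IsMinimal M} : ℝ) / (Set.ncard (OneFinal A n) : ℝ)

theorem prob_eq (A : Type) (n : ℕ) :
    Pool.Agent.Results.MP_8401d0_pr.OneFinalMinimal.prob A n = prob A n := rfl

open Pool.Agent.Results.MP_8401d0_pr.OneFinalMinimal in
theorem prob_two (A : Type) [Finite A] (hA : Nat.card A = 2) (n : ℕ) :
    prob A n = 1 - ((Pool.Agent.KS6_31.AM.Nonmin n 2).ncard : ℝ) / ((RA.accN n 2 : ℝ) * (n+1)) := by
  rw [← prob_eq]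
  have e : A ≃ Fin 2 := by
    have := Finite.equivFin A
    rwa [hA] at this
  have hall := Pool.Agent.KS6_31.AM.ncard_all_pairs n 2
  have hsplit : Set.ncard {x : (Fin (n + 1) → Fin 2 → Fin (n + 1)) × Fin (n + 1) |
        RA.Acc x.1 0}
      = Set.ncard {x : (Fin (n + 1) → Fin 2 → Fin (n + 1)) × Fin (n + 1) |
          RA.Acc x.1 0 ∧ ∀ p q, RA.LE x.1 x.2 p q → p = q}
        + Set.ncard (Pool.Agent.KS6_31.AM.Nonmin n 2) := by
    rw [← Set.ncard_union_eq _ (Set.toFinite _) (Set.toFinite _)]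
    · congr 1
      ext x
      simp only [Pool.Agent.KS6_31.AM.Nonmin, Set.mem_ofPred_eq, Set.mem_union]
      tauto
    · rw [Set.disjoint_left]
      rintro x ⟨_, h1⟩ ⟨_, h2⟩
      exact h2 h1
  have hA0 : (0:ℝ) < RA.accN n 2 := by exact_mod_cast RA.accN_pos n 2 (by omega)
  have hallR : (Set.ncard {x : (Fin (n + 1) → Fin 2 → Fin (n + 1)) × Fin (n + 1) |
        RA.Acc x.1 0} : ℝ) = (RA.accN n 2 : ℝ) * (n+1) := by
    rw [hall]; push_cast; ring
  have hsplitR : (Set.ncard {x : (Fin (n + 1) → Fin 2 → Fin (n + 1)) × Fin (n + 1) |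
        RA.Acc x.1 0} : ℝ)
      = (Set.ncard {x : (Fin (n + 1) → Fin 2 → Fin (n + 1)) × Fin (n + 1) |
          RA.Acc x.1 0 ∧ ∀ p q, RA.LE x.1 x.2 p q → p = q} : ℝ)
        + (Set.ncard (Pool.Agent.KS6_31.AM.Nonmin n 2) : ℝ) := by exact_mod_cast hsplit
  unfold Pool.Agent.Results.MP_8401d0_pr.OneFinalMinimal.prob
  rw [ncard_min e, ncard_all e, hallR]
  rw [hallR] at hsplitR
  have hpos : (0:ℝ) < (RA.accN n 2 : ℝ) * (n+1) := by positivity
  rw [eq_sub_iff_add_eq, ← add_div, ← hsplitR, div_self hpos.ne']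

/-- the equation `1 - x = exp (-2 x)` has at most one positive solution. -/
theorem unique_lt (x y : ℝ) (hx : 0 < x) (hxe : 1 - x = Real.exp (-(2*x)))
    (hye : 1 - y = Real.exp (-(2*y))) (h : x < y) : False := by
  have hy1 : y < 1 := by
    have := Real.exp_pos (-(2*y)); linarith
  obtain ⟨c, hc0, -, hc⟩ := Pool.Agent.KS6_31.AM.omega_drift y (by linarith) hy1 hye
  have h1 := hc x hx.le h.le
  have h2 : 0 < c * min x (y - x) := mul_pos hc0 (lt_min hx (by linarith))
  linarith

theorem omega_bounds (ω : ℝ) (h0 : 0 < ω) (hω : 1 - ω = Real.exp (-(2*ω))) :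
    79/100 < ω ∧ ω < 4/5 := by
  have h1 : ω < 1 := by
    have := Real.exp_pos (-(2*ω)); linarith
  have he1 := Real.exp_one_gt_d9
  have he2 := Real.exp_one_lt_d9
  -- values of the exponential
  have e16 : Real.exp (8/5) < 5 := by
    have : (Real.exp (8/5))^5 < 5^5 := by
      rw [← Real.exp_nat_mul]
      have : ((5:ℕ):ℝ) * (8/5) = ((8:ℕ):ℝ) * 1 := by norm_num
      rw [this, Real.exp_nat_mul]
      calc (Real.exp 1)^8 < (2.7182818286:ℝ)^8 := pow_lt_pow_left₀ he2 (Real.exp_pos _).le (by norm_num)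
        _ < 5^5 := by norm_num
    exact lt_of_pow_lt_pow_left₀ 5 (by norm_num) this
  have e158 : 100/21 < Real.exp (79/50) := by
    have : ((100:ℝ)/21)^50 < (Real.exp (79/50))^50 := by
      rw [← Real.exp_nat_mul]
      have : ((50:ℕ):ℝ) * (79/50) = ((79:ℕ):ℝ) * 1 := by norm_num
      rw [this, Real.exp_nat_mul]
      calc ((100:ℝ)/21)^50 < (2.7182818283:ℝ)^79 := by norm_num
        _ < (Real.exp 1)^79 := pow_lt_pow_left₀ he1 (by norm_num) (by norm_num)
    exact lt_of_pow_lt_pow_left₀ 50 (Real.exp_pos _).le this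
  constructor
  · by_contra hcon
    push Not at hcon
    -- the function is positive between `0` and `0.79`
    obtain ⟨y, hy0, hy1, hy⟩ : ∃ y : ℝ, 79/100 < y ∧ y < 1 ∧ 1 - y = Real.exp (-(2*y)) := by
      have hcont : Continuous (fun x : ℝ => 1 - x - Real.exp (-(2*x))) := by fun_prop
      have h2 : (0:ℝ) < 1 - (79/100) - Real.exp (-(2*(79/100))) := by
        have e : (-(2*(79/100:ℝ))) = -(79/50) := by norm_num
        rw [e, Real.exp_neg]
        have : (Real.exp (79/50))⁻¹ < 21/100 := by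
          rw [inv_lt_comm₀ (Real.exp_pos _) (by norm_num)]
          have : ((21:ℝ)/100)⁻¹ = 100/21 := by norm_num
          rw [this]; exact e158
        linarith
      have h3 : (1:ℝ) - 1 - Real.exp (-(2*1)) < 0 := by
        have := Real.exp_pos (-(2*(1:ℝ)))
        linarith
      obtain ⟨x, hx, hx2⟩ := intermediate_value_Icc' (by norm_num : (79/100:ℝ) ≤ 1)
        hcont.continuousOn
        (show (0:ℝ) ∈ Set.Icc ((1:ℝ) - 1 - Real.exp (-(2*1)))
          ((1:ℝ) - (79/100) - Real.exp (-(2*(79/100)))) from ⟨h3.le, h2.le⟩)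
      simp only at hx2
      refine ⟨x, lt_of_le_of_ne hx.1 ?_, lt_of_le_of_ne hx.2 ?_, by linarith⟩
      · rintro rfl; linarith
      · rintro rfl; linarith
    exact unique_lt ω y h0 hω hy (by linarith)
  · by_contra hcon
    push Not at hcon
    obtain ⟨c, hc0, -, hc⟩ := Pool.Agent.KS6_31.AM.omega_drift ω h0 h1 hω
    have h2 := hc (4/5) (by norm_num) hcon
    have h3 : 0 ≤ c * min (4/5) (ω - 4/5) :=
      mul_nonneg hc0.le (le_min (by norm_num) (by linarith))
    have h4 : (1/5:ℝ) < Real.exp (-(2*(4/5))) := by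
      have e : (-(2*(4/5:ℝ))) = -(8/5) := by norm_num
      rw [e, Real.exp_neg, lt_inv_comm₀ (by norm_num) (Real.exp_pos _)]
      have : ((1:ℝ)/5)⁻¹ = 5 := by norm_num
      rw [this]; exact e16
    linarith

theorem limit_bounds (ω : ℝ) (h0 : 0 < ω) (hω : 1 - ω = Real.exp (-(2*ω))) :
    18/25 < Real.exp (-(ω^2/2)) ∧ Real.exp (-(ω^2/2)) < 37/50 := by
  obtain ⟨h1, h2⟩ := omega_bounds ω h0 hω
  have he1 := Real.exp_one_gt_d9
  have he2 := Real.exp_one_lt_d9
  have e1 : Real.exp (8/25) < 25/18 := by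
    have : (Real.exp (8/25))^25 < ((25:ℝ)/18)^25 := by
      rw [← Real.exp_nat_mul]
      have : ((25:ℕ):ℝ) * (8/25) = ((8:ℕ):ℝ) * 1 := by norm_num
      rw [this, Real.exp_nat_mul]
      calc (Real.exp 1)^8 < (2.7182818286:ℝ)^8 := pow_lt_pow_left₀ he2 (Real.exp_pos _).le (by norm_num)
        _ < ((25:ℝ)/18)^25 := by norm_num
    exact lt_of_pow_lt_pow_left₀ 25 (by norm_num) this
  have e2 : 50/37 < Real.exp (31/100) := by
    have : ((50:ℝ)/37)^100 < (Real.exp (31/100))^100 := by
      rw [← Real.exp_nat_mul]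
      have : ((100:ℕ):ℝ) * (31/100) = ((31:ℕ):ℝ) * 1 := by norm_num
      rw [this, Real.exp_nat_mul]
      calc ((50:ℝ)/37)^100 < (2.7182818283:ℝ)^31 := by norm_num
        _ < (Real.exp 1)^31 := pow_lt_pow_left₀ he1 (by norm_num) (by norm_num)
    exact lt_of_pow_lt_pow_left₀ 100 (Real.exp_pos _).le this
  constructor
  · rw [Real.exp_neg, lt_inv_comm₀ (by norm_num) (Real.exp_pos _)]
    have : ((18:ℝ)/25)⁻¹ = 25/18 := by norm_num
    rw [this]
    refine lt_of_le_of_lt (Real.exp_le_exp.2 ?_) e1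
    nlinarith
  · rw [Real.exp_neg, inv_lt_comm₀ (Real.exp_pos _) (by norm_num)]
    have : ((37:ℝ)/50)⁻¹ = 50/37 := by norm_num
    rw [this]
    refine lt_of_lt_of_le e2 (Real.exp_le_exp.2 ?_)
    nlinarith

/-- Let `ω` be the unique positive solution of `1 - ω = exp (-2 ω)` (so `0.79 < ω < 0.8`). For every
alphabet `A` with two letters the probability that a uniformly random accessible automaton with `n + 1`
states and exactly one final state is minimal tends to `exp (-ω² / 2)`, which lies between `0.72` and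
`0.74`; for every finite alphabet with at least three letters it tends to `1`. In particular the lower
limit is positive for every finite alphabet with at least two letters. -/
theorem result :
    ∃ ω : ℝ, 0 < ω ∧ 1 - ω = Real.exp (-(2 * ω)) ∧
      (∀ x : ℝ, 0 < x → 1 - x = Real.exp (-(2 * x)) → x = ω) ∧
      79 / 100 < ω ∧ ω < 4 / 5 ∧
      18 / 25 < Real.exp (-(ω ^ 2 / 2)) ∧ Real.exp (-(ω ^ 2 / 2)) < 37 / 50 ∧
      (∀ A : Type, [Finite A] → Nat.card A = 2 →
        Tendsto (fun n => prob A n) atTop (𝓝 (Real.exp (-(ω ^ 2 / 2))))) ∧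
      (∀ A : Type, [Finite A] → 3 ≤ Nat.card A → Tendsto (fun n => prob A n) atTop (𝓝 1)) ∧
      (∀ A : Type, [Finite A] → 2 ≤ Nat.card A → 0 < liminf (fun n => prob A n) atTop) := by
  obtain ⟨ω, h0, h1, hω⟩ := Pool.Agent.KS6_31.AM.exists_omega
  have hb := omega_bounds ω h0 hω
  have hl := limit_bounds ω h0 hω
  refine ⟨ω, h0, hω, ?_, hb.1, hb.2, hl.1, hl.2, ?_, ?_, ?_⟩
  · intro x hx hxe
    rcases lt_trichotomy x ω with h | h | h
    · exact (unique_lt x ω hx hxe hω h).elim
    · exact h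
    · exact (unique_lt ω x h0 hω hxe h).elim
  · intro A _ hA
    have h2 := (Pool.Agent.KS6_31.AM.nonmin_tendsto ω h0 h1 hω).const_sub 1
    have e : (1:ℝ) - (1 - Real.exp (-(ω^2/2))) = Real.exp (-(ω^2/2)) := by ring
    rw [e] at h2
    exact h2.congr fun n => (prob_two A hA n).symm
  · intro A _ hA
    have := (Pool.Agent.Results.MP_8401d0_pr.OneFinalMinimal.result A (by omega)).2.2 hA
    simpa only [prob_eq] using this
  · intro A _ hA
    have := (Pool.Agent.Results.MP_8401d0_pr.OneFinalMinimal.result A hA).1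
    simpa only [prob_eq] using this

end Pool.Agent.Results.MP_8401d0_pr.ExactLimit
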